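import Pool.Agent.Run7.h420.TM.Stm

/-!
# MIXBERN: Bernoulli shifts are mixing
-/

set_option autoImplicit false

namespace Pool.Agent.Run7.h420.TM

open MeasureTheory Filter Topology Set

section

variable {G B : Type} [Group G] [MeasurableSpace B]

/-- A box. -/
def h664_bx (s : Finset G) (a : G → Set B) : Set (Sh G B) := {x | ∀ i ∈ s, x i ∈ a i}

omit [Group G] [MeasurableSpace B] in
theorem h664_bx_eq (s : Finset G) (a : G → Set B) :
    h664_bx s a = ((s : Set G).pi a : Set (G → B)) := rfl

omit [MeasurableSpace B] in
/-- The preimage of a box under a shift. -/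
theorem h664_pre (g : G) (t : Finset G) (b : G → Set B) :
    (fun x : Sh G B => g • x) ⁻¹' (h664_bx t b) =
      h664_bx (t.map (mulRightEmbedding g)) (fun j => b (j * g⁻¹)) := by
  ext x
  constructor
  · intro h j hj
    rw [Finset.mem_map] at hj
    obtain ⟨i, hi, rfl⟩ := hj
    have := h i hi
    simp only [mulRightEmbedding_apply, mul_inv_cancel_right]
    exact this
  · intro h i hi
    have := h (i * g) (Finset.mem_map.2 ⟨i, hi, rfl⟩)
    simp only [mul_inv_cancel_right] at this
    exact this

omit [Group G] in
theorem h664_box (ν : Measure B) [IsProbabilityMeasure ν] (s : Finset G) (a : G → Set B)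
    (ha : ∀ i, MeasurableSet (a i)) :
    bern G ν (h664_bx s a) = ∏ i ∈ s, ν (a i) :=
  Measure.infinitePi_pi (fun _ : G => ν) (fun i _ => ha i)

theorem h664_pre_box (ν : Measure B) [IsProbabilityMeasure ν] (g : G) (t : Finset G)
    (b : G → Set B) (hb : ∀ i, MeasurableSet (b i)) :
    bern G ν ((fun x : Sh G B => g • x) ⁻¹' (h664_bx t b)) = ∏ i ∈ t, ν (b i) := by
  rw [h664_pre, h664_box ν _ _ (fun i => hb _), Finset.prod_map]
  simp

theorem h664_meas (g : G) : Measurable (fun x : Sh G B => g • x) :=
  measurable_pi_iff.2 fun h => measurable_pi_apply (h * g)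

omit [Group G] in
theorem h664_bx_meas (s : Finset G) (a : G → Set B) (ha : ∀ i, MeasurableSet (a i)) :
    MeasurableSet (h664_bx s a) :=
  (MeasurableSet.pi s.countable_toSet (fun i _ => ha i) :
    MeasurableSet ((s : Set G).pi a : Set (G → B)))

theorem h664_pres (ν : Measure B) [IsProbabilityMeasure ν] (g : G) :
    MeasurePreserving (fun x : Sh G B => g • x) (bern G ν) (bern G ν) := by
  refine ⟨h664_meas g, ?_⟩
  refine Measure.eq_infinitePi (fun _ : G => ν) (fun s t ht => ?_)
  have h2 := Measure.map_apply (μ := bern G ν) (h664_meas (B := B) g) (h664_bx_meas s t ht)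
  exact h2.trans (h664_pre_box ν g s t ht)

end

/-- **MIXBERN**. -/
theorem t_MIXBERN (hG : S_MIXGEN) : S_MIXBERN := by
  intro G B _ _ ν hν
  classical
  have hprob : IsProbabilityMeasure (bern G ν) :=
    inferInstanceAs (IsProbabilityMeasure (Measure.infinitePi (fun _ : G => ν)))
  refine hG G (Sh G B) (bern G ν)
    (squareCylinders (fun _ : G => {s : Set B | MeasurableSet s})) hprob
    (fun g => h664_pres ν g) (generateFrom_squareCylinders (α := fun _ : G => B)).symm
    (isPiSystem_squareCylinders (fun _ => MeasurableSpace.isPiSystem_measurableSet) (by simp)) ?_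
  rintro _ ⟨s, a, ha, rfl⟩ _ ⟨t, b, hb, rfl⟩
  have ha' : ∀ i, MeasurableSet (a i) := fun i => ha i (mem_univ _)
  have hb' : ∀ i, MeasurableSet (b i) := fun i => hb i (mem_univ _)
  change Tendsto (fun g : G => (bern G ν).real (h664_bx s a ∩
    (fun x : Sh G B => g • x) ⁻¹' (h664_bx t b))) cofinite
    (𝓝 ((bern G ν).real (h664_bx s a) * (bern G ν).real (h664_bx t b)))
  have hfin : {g : G | ∃ i ∈ t, i * g ∈ s}.Finite := by
    refine ((t ×ˢ s).image (fun p : G × G => p.1⁻¹ * p.2)).finite_toSet.subset ?_
    rintro g ⟨i, hi, hg⟩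
    rw [Finset.mem_coe, Finset.mem_image]
    exact ⟨(i, i * g), Finset.mem_product.2 ⟨hi, hg⟩, by simp⟩
  have key : ∀ g : G, ¬ (∃ i ∈ t, i * g ∈ s) →
      (bern G ν).real (h664_bx s a ∩ (fun x : Sh G B => g • x) ⁻¹' (h664_bx t b)) =
      (bern G ν).real (h664_bx s a) * (bern G ν).real (h664_bx t b) := by
    intro g hg
    push Not at hg
    unfold Measure.real
    rw [← ENNReal.toReal_mul]
    congr 1
    rw [h664_pre, h664_box ν s a ha', h664_box ν t b hb']
    set t' : Finset G := t.map (mulRightEmbedding g) with ht'
    have hdis : Disjoint s t' := by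
      rw [Finset.disjoint_right]
      intro j hj
      rw [ht', Finset.mem_map] at hj
      obtain ⟨i, hi, rfl⟩ := hj
      exact hg i hi
    set c : G → Set B := fun j => if j ∈ s then a j else b (j * g⁻¹) with hc
    have hcm : ∀ j, MeasurableSet (c j) := by
      intro j
      rw [hc]
      simp only
      split_ifs
      · exact ha' j
      · exact hb' _
    have h1 : h664_bx s a ∩ h664_bx t' (fun j => b (j * g⁻¹)) = h664_bx (s ∪ t') c := by
      ext x
      constructor
      · rintro ⟨h1, h2⟩ j hj
        by_cases hjs : j ∈ s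
        · have : c j = a j := if_pos hjs
          rw [this]
          exact h1 j hjs
        · have : c j = b (j * g⁻¹) := if_neg hjs
          rw [this]
          exact h2 j ((Finset.mem_union.1 hj).resolve_left hjs)
      · intro h
        refine ⟨fun j hj => ?_, fun j hj => ?_⟩
        · have h2 := h j (Finset.mem_union_left _ hj)
          have : c j = a j := if_pos hj
          rwa [this] at h2
        · have h2 := h j (Finset.mem_union_right _ hj)
          have : c j = b (j * g⁻¹) := if_neg (Finset.disjoint_right.1 hdis hj)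
          rwa [this] at h2
    rw [h1, h664_box ν _ c hcm, Finset.prod_union hdis]
    congr 1
    · refine Finset.prod_congr rfl fun j hj => ?_
      have : c j = a j := if_pos hj
      rw [this]
    · rw [ht', Finset.prod_map]
      refine Finset.prod_congr rfl fun i hi => ?_
      have : c (mulRightEmbedding g i) = b (mulRightEmbedding g i * g⁻¹) := if_neg (hg i hi)
      rw [this, mulRightEmbedding_apply, mul_inv_cancel_right]
  refine tendsto_const_nhds.congr' ?_
  filter_upwards [hfin.compl_mem_cofinite] with g hg
  exact (key g hg).symm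

end Pool.Agent.Run7.h420.TM
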