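import Pool.Agent.Run7.h420.TM.Stm

/-!
# MIXGEN: mixing need only be checked on a generating pi-system
-/

set_option autoImplicit false

namespace Pool.Agent.Run7.h420.TM

open MeasureTheory Filter Topology Set

/-- Convergence on a generating pi-system of measures which are dominated by `μ`. -/
theorem h664_ind {X ι : Type} [mX : MeasurableSpace X] (μ : Measure X) [IsProbabilityMeasure μ]
    (C : Set (Set X)) (hgen : mX = MeasurableSpace.generateFrom C) (hpi : IsPiSystem C)
    (l : Filter ι) (P : ι → Measure X) (c : ℝ) (hle : ∀ i, P i ≤ μ)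
    (htot : Tendsto (fun i => (P i).real univ) l (𝓝 c))
    (hC : ∀ B ∈ C, Tendsto (fun i => (P i).real B) l (𝓝 (c * μ.real B))) (B : Set X)
    (hB : MeasurableSet B) : Tendsto (fun i => (P i).real B) l (𝓝 (c * μ.real B)) := by
  have hfin : ∀ i, IsFiniteMeasure (P i) := fun i =>
    ⟨(hle i univ).trans_lt (measure_lt_top μ univ)⟩
  have hle' : ∀ i (S : Set X), (P i).real S ≤ μ.real S := fun i S =>
    ENNReal.toReal_mono (measure_ne_top μ S) (hle i S)
  induction B, hB using MeasurableSpace.induction_on_inter hgen hpi with
  | empty =>
    simp only [measureReal_empty, mul_zero]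
    exact tendsto_const_nhds
  | basic B hB => exact hC B hB
  | compl B hB ih =>
    have h1 : ∀ i, (P i).real Bᶜ = (P i).real univ - (P i).real B := fun i =>
      measureReal_compl hB
    simp only [h1]
    rw [show c * μ.real Bᶜ = c - c * μ.real B by rw [probReal_compl_eq_one_sub hB]; ring]
    exact htot.sub ih
  | iUnion f hd hf ih =>
    have hun : ∀ (ρ : Measure X) [IsFiniteMeasure ρ], ρ.real (⋃ n, f n) = ∑' n, ρ.real (f n) := by
      intro ρ _
      unfold Measure.real
      rw [measure_iUnion hd hf, ENNReal.tsum_toReal_eq (fun n => measure_ne_top ρ _)]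
    have hsum : Summable (fun n => μ.real (f n)) := by
      apply ENNReal.summable_toReal
      rw [← measure_iUnion hd hf]
      exact measure_ne_top μ _
    have h1 : ∀ i, (P i).real (⋃ n, f n) = ∑' n, (P i).real (f n) := fun i => hun (P i)
    simp only [h1]
    rw [hun μ, ← tsum_mul_left]
    refine tendsto_tsum_of_dominated_convergence hsum (fun n => ih n) (Eventually.of_forall ?_)
    intro i n
    rw [Real.norm_eq_abs, abs_of_nonneg measureReal_nonneg]
    exact hle' i _

/-- **MIXGEN**. -/
theorem t_MIXGEN : S_MIXGEN := by
  intro G X _ _ mX μ C hP hpres hgen hpi hC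
  have hgm : ∀ g : G, Measurable (fun x : X => g • x) := fun g => (hpres g).measurable
  have hCm : ∀ A ∈ C, MeasurableSet A := fun A hA => by
    rw [hgen]
    exact MeasurableSpace.measurableSet_generateFrom hA
  have hinv : ∀ (g : G) (B : Set X), MeasurableSet B →
      μ ((fun x : X => g • x) ⁻¹' B) = μ B := fun g B hB =>
    (hpres g).measure_preimage hB.nullMeasurableSet
  -- step 1
  have step1 : ∀ A ∈ C, ∀ B : Set X, MeasurableSet B →
      Tendsto (fun g : G => μ.real (A ∩ (fun x : X => g • x) ⁻¹' B)) cofinite
        (𝓝 (μ.real A * μ.real B)) := by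
    intro A hA B hB
    have key := h664_ind μ C hgen hpi cofinite
      (fun g : G => (μ.restrict A).map (fun x : X => g • x)) (μ.real A) ?_ ?_ ?_ B hB
    · refine key.congr fun g => ?_
      unfold Measure.real
      rw [Measure.map_apply (hgm g) hB, Measure.restrict_apply (hgm g hB), inter_comm]
    · intro g
      rw [Measure.le_iff]
      intro S hS
      rw [Measure.map_apply (hgm g) hS, ← hinv g S hS]
      exact Measure.restrict_apply_le _ _
    · refine tendsto_const_nhds.congr fun g => ?_
      unfold Measure.real
      rw [Measure.map_apply (hgm g) MeasurableSet.univ, preimage_univ, Measure.restrict_apply_univ]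
    · intro B hB
      refine (hC A hA B hB).congr fun g => ?_
      unfold Measure.real
      rw [Measure.map_apply (hgm g) (hCm B hB), Measure.restrict_apply (hgm g (hCm B hB)),
        inter_comm]
  refine ⟨hP, hpres, fun A B hA hB => ?_⟩
  have key := h664_ind μ C hgen hpi cofinite
    (fun g : G => μ.restrict ((fun x : X => g • x) ⁻¹' B)) (μ.real B) ?_ ?_ ?_ A hA
  · rw [mul_comm]
    refine key.congr fun g => ?_
    unfold Measure.real
    rw [Measure.restrict_apply hA]
  · intro g
    exact Measure.restrict_le_self
  · refine tendsto_const_nhds.congr fun g => ?_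
    unfold Measure.real
    rw [Measure.restrict_apply_univ, hinv g B hB]
  · intro A hA
    rw [mul_comm]
    refine (step1 A hA B hB).congr fun g => ?_
    unfold Measure.real
    rw [Measure.restrict_apply (hCm A hA)]

end Pool.Agent.Run7.h420.TM
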