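import Pool.Agent.Run7.h420.TM.Stm

/-!
# MIXPROD: products of mixing actions are mixing
-/

set_option autoImplicit false

namespace Pool.Agent.Run7.h420.TM

open MeasureTheory Filter Topology Set

/-- **MIXPROD**. -/
theorem t_MIXPROD (hG : S_MIXGEN) : S_MIXPROD := by
  intro G X Z _ _ _ _ _ μ ν hμ hν
  have := hμ.prob
  have := hν.prob
  refine hG G (X × Z) (μ.prod ν)
    (image2 (· ×ˢ ·) {s : Set X | MeasurableSet s} {t : Set Z | MeasurableSet t}) inferInstance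
    (fun g => (hμ.pres g).prod (hν.pres g)) generateFrom_prod.symm isPiSystem_prod ?_
  rintro _ ⟨A1, hA1, A2, hA2, rfl⟩ _ ⟨B1, hB1, B2, hB2, rfl⟩
  have h1 : ∀ g : G, (A1 ×ˢ A2) ∩ (fun p : X × Z => g • p) ⁻¹' (B1 ×ˢ B2) =
      (A1 ∩ (fun x : X => g • x) ⁻¹' B1) ×ˢ (A2 ∩ (fun z : Z => g • z) ⁻¹' B2) := by
    intro g
    ext ⟨x, z⟩
    simp only [mem_inter_iff, mem_prod, mem_preimage, Prod.smul_mk]
    tauto
  have h2 := (hμ.mix A1 B1 hA1 hB1).mul (hν.mix A2 B2 hA2 hB2)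
  simp only [h1, measureReal_prod_prod]
  rw [show μ.real A1 * ν.real A2 * (μ.real B1 * ν.real B2) =
    μ.real A1 * μ.real B1 * (ν.real A2 * ν.real B2) by ring]
  exact h2

end Pool.Agent.Run7.h420.TM
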